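import Pool.Agent.BEQ.Stmts
import Pool.Agent.Helper53_BEL.Fin

/-!
# Squad BEQ (MP_be01ff_an), row GEN: the theorem for generic domains
-/

set_option autoImplicit false

namespace Pool.Agent.BEQ.H3

open Set Filter Topology MeasureTheory
open scoped InnerProductSpace ENNReal
open Pool.Agent Pool.Agent.BE01 Pool.Agent.BEL Pool.Agent.BEH Pool.Agent.BEG Pool.Agent.BEQ

/-- a subdomain has a system of eigenfunctions -/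
theorem ok_of {d : ℕ} (hd0 : 0 < d) {Ω : Set (En d)} (hΩ : Dom Ω) :
    ∃ (ι : VV Ω →L[ℝ] Lp ℝ 2 (mu Ω)) (b : HilbertBasis ℕ ℝ (Lp ℝ 2 (mu Ω)))
      (e : HilbertBasis ℕ ℝ (VV Ω)) (om : ℕ → ℝ), Ok Ω ι b e om := by
  obtain ⟨ι, hemb, hgrf⟩ := Pool.Agent.BEL.H53.empA d Ω hd0 hΩ
  obtain ⟨b, e, om, hspec⟩ := Pool.Agent.BEL.H53.eigA d Ω ι hd0 hΩ hemb
  exact ⟨ι, b, e, om, ⟨hΩ, hemb, hgrf, hspec⟩⟩

theorem gen (tex : TexStmt) (nea : NeaStmt) (dns : DnsStmt) (osp : OspStmt) (unm : UnmStmt) :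
    GenStmt := by
  intro d hd2 huni D Ω P δ ε hD hO hc hsub hδ hε
  have hd0 : 0 < d := by omega
  have hdom : ∀ W : Set (En d), IsOpen W → IsConnected W → W ⊆ D → Dom W :=
    fun W hW hc hs => ⟨hW, hD.2.1.subset hs, hc.nonempty⟩
  obtain ⟨ι, b, e, om, hok⟩ := ok_of hd0 (hdom Ω hO hc hsub)
  obtain ⟨M, hM⟩ := unm d hd2 huni D P (om 0 ^ 2 + 3) hD
  obtain ⟨J, x, r, h1, h2, h3, h4, h5, h6, h7⟩ :=
    dns d hd2 D Ω ι b e om M δ ε hD hsub hok hc hδ hε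
  refine ⟨J, x, r, h1, h2, h3, h4, h6, ?_⟩
  obtain ⟨ι', b', e', om', hok'⟩ := ok_of hd0 h5
  have hsub' : Hl Ω x r ⊆ D := fun y hy => hsub hy.1
  obtain ⟨T, v, hT, hTv⟩ := tex d D _ ι' b' e' om' hd0 hD hsub' hok'
  obtain ⟨h8, h9⟩ := h7 ι' b' e' om' hok'
  obtain ⟨η, hη, hη2⟩ := osp _ T v om' M hok'.spec.pos hok'.spec.top hTv h9
  refine ⟨η, hη, fun W hOW hcW hsW hn p hp hpP => ?_⟩
  have hW : Dom W := hdom W hOW hcW hsW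
  obtain ⟨ι₂, b₂, e₂, om₂, hok₂⟩ := ok_of hd0 hW
  obtain ⟨T₂, v₂, hT₂, hTv₂⟩ := tex d D W ι₂ b₂ e₂ om₂ hd0 hD hsW hok₂
  have hnear : ‖T - T₂‖ ≤ η := (nea d D _ W T T₂ η hd0 hD h5 hW hsub' hsW hT hT₂ hη.le).1 hn
  obtain ⟨h10, h11⟩ := hη2 T₂ v₂ om₂ hok₂.spec.pos hTv₂ hnear
  exact hM W ι₂ b₂ e₂ om₂ hok₂ hcW hsW (by linarith) h11 p hp hpP

end Pool.Agent.BEQ.H3
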